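import Pool.Agent.R492.DV.Kueker
import Pool.Agent.R492.DV.OrdFin

/-!
# Orderings of fields which are NIP, `NIP_n` or NTP2 are definable

Let `K` be a field (a pure field, in the language of rings) which is NIP, or `NIP_n` for some `n`, or
NTP2. Then every ordering of `K` for which every positive element lies between `y²` and `y² / 2` for
some `y`, in particular every archimedean ordering (the ordering induced by an embedding of `K` in
the real numbers), is definable with parameters in the language of rings, and the number of such
orderings of the fields elementarily equivalent to `K` is bounded. So for a NIP subfield of the real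
numbers the ordered field is also NIP.

By the result `LocalPlaces` of this folder there is an `N` such that among any `N` orderings of a field
elementarily equivalent to `K` there are two with the same real place. An ordering as above is
determined by its real place, also in the elementarily equivalent structures. So there are fewer
than `N` expansions of any such field to an ordered field elementarily equivalent to the given one,
and by Kueker's theorem the ordering is definable with parameters. Kueker's theorem is proved with
Robinson's joint consistency argument in `Pool/Agent/R492/DV`.
-/

set_option autoImplicit false

namespace Pool.Agent.Results.MP_3554b5_lc.DefinableOrderings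

open Pool.Agent.W882.Nip3 Pool.Agent.R614.NF Pool.Agent.R492.DV

/-- Let `K` be a field which is NIP (the hypothesis of `S14569`), or `NIP_n` for some `n`, or
`NTP2`.

(1) Every ordering of `K` such that for every `x ≥ 0` there is a `y` with `x ≤ y² ≤ 2x` is definable
with parameters in the language of rings.

(2) For every embedding `f` of `K` in the real numbers the ordering induced by `f` is definable with
parameters.

(3) There is an `N` such that no field elementarily equivalent to `K` has `N` orderings as in (1). -/
theorem result (K : Type) [Field K] [FirstOrder.Ring.CompatibleRing K]
    (hK : NIPField K ∨ (∃ n, NIPnField n K) ∨ NTP2Field K) :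
    (∀ o : FieldOrder K, Tight o →
      ∃ (p : ℕ) (ψ : FirstOrder.Language.ring.Formula (Fin 1 ⊕ Fin p)) (c : Fin p → K),
        ∀ x : K, o.le 0 x ↔ ψ.Realize (Sum.elim (fun _ => x) c)) ∧
    (∀ f : K →+* ℝ,
      ∃ (p : ℕ) (ψ : FirstOrder.Language.ring.Formula (Fin 1 ⊕ Fin p)) (c : Fin p → K),
        ∀ x : K, 0 ≤ f x ↔ ψ.Realize (Sum.elim (fun _ => x) c)) ∧
    ∃ N : ℕ, ∀ (K' : Type) [Field K'] [FirstOrder.Ring.CompatibleRing K'],
      FirstOrder.Language.ring.ElementarilyEquivalent K K' →
      {o : FieldOrder K' | Tight o}.encard < N :=
  ord_main kueker K hK

end Pool.Agent.Results.MP_3554b5_lc.DefinableOrderings
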